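import Pool.Agent.HPow.Aff

/-!
# Finite generation of `K'₀` for torus actions of small complexity and bilinear hypersurfaces
-/

namespace Pool.Agent.Results.MP_e17fa799_al.TorusBilinear

open Pool.Agent.Helper11 Pool.Agent.Helper67.Bass MvPolynomial

/-- Let `A` be a finitely generated commutative ring with a grading by a totally ordered abelian
group. Suppose that for every homogeneous prime ideal `P` the field of homogeneous fractions of
degree zero of `A ⧸ P` is a rational function field over a field of Kronecker dimension at most one,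
or that for some prime ideal `Q` inside `P` the field of homogeneous fractions of degree zero of
`A ⧸ Q` has itself Kronecker dimension at most one. Let
`F = e + ∑ a_i y_i + ∑ d_j z_j + ∑ φ_ij y_i z_j` be a polynomial over `A` of degree at most one in
the variables `y` and of degree at most one in the variables `z` which is homogeneous of degree `γ`
for some weights `α i` of `y_i` and `δ j` of `z_j`. Then `K'₀` of the hypersurface `F = 0` over `A`
(of `Spec A` itself, if `F = 0` and there are no variables) is finitely generated. -/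
theorem result {ι : Type} [AddCommGroup ι] [LinearOrder ι] [IsOrderedAddMonoid ι] {A : Type}
    [CommRing A] [Algebra.FiniteType ℤ A] (𝒜 : ι → AddSubgroup A) [GradedRing 𝒜]
    (h : ∀ (P : Ideal A) [P.IsPrime], P.IsHomogeneous 𝒜 → RationalOverKroneckerLeOne (K0 𝒜 (toFrac P)) ∨
      ∃ (Q : Ideal A) (_ : Q.IsPrime), Q ≤ P ∧ KroneckerLeOne (K0 𝒜 (toFrac Q)))
    {b c : ℕ} (e : A) (a : Fin b → A) (d : Fin c → A) (φ : Fin b → Fin c → A) (γ : ι)
    (α : Fin b → ι) (δ : Fin c → ι) (he : e ∈ 𝒜 γ) (ha : ∀ i, a i ∈ 𝒜 (γ - α i))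
    (hd : ∀ j, d j ∈ 𝒜 (γ - δ j)) (hφ : ∀ i j, φ i j ∈ 𝒜 (γ - α i - δ j)) :
    AddGroup.FG (G0 (MvPolynomial (Fin b ⊕ Fin c) A ⧸
      Ideal.span {C e + ∑ i, C (a i) * X (Sum.inl i) + ∑ j, C (d j) * X (Sum.inr j) +
        ∑ i, ∑ j, C (φ i j) * X (Sum.inl i) * X (Sum.inr j)})) := by
  have : IsNoetherianRing A := Algebra.FiniteType.isNoetherianRing ℤ A
  have h' : ∀ (P : Ideal A) [P.IsPrime], P.IsHomogeneous 𝒜 →
      RationalOverKroneckerLeOne (K0 𝒜 (toFrac P)) := by
    intro P hP hhom
    rcases h P hhom with h | ⟨Q, hQ, hQP, h⟩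
    · exact h
    · refine (KroneckerLeOne.mono 𝒜 (toFrac Q) (toFrac P) ?_ h).ratSmall
      rw [ker_toFrac, ker_toFrac]; exact hQP
  exact HPow.fg_affF 𝒜 (finGn_graded_quotient 𝒜 h') e a d φ γ α (fun j => γ - δ j) he ha hd
    (fun i j => by
      have : γ - δ j - α i = γ - α i - δ j := by abel
      rw [this]
      exact hφ i j)

end Pool.Agent.Results.MP_e17fa799_al.TorusBilinear
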